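import Mathlib

/-!
# A disconnected positive pentahedron in `Gr(2,4)`

Let `P` be cut out of the positive simplex by `h = 4 (p₁₂ + p₃₄) - 5 (p₁₃ + p₂₄) - 3 (p₁₄ + p₂₃) ≥ 0`.
On `S = P ∩ Gr(2,4)` we have `p₁₂ p₃₄ ≤ p₁₃ p₂₄ ≤ ((p₁₃ + p₂₄) / 2)² ≤ (4/25) (p₁₂ + p₃₄)²`, so
`p₁₂ ≠ p₃₄`, and both signs of `p₁₂ - p₃₄` occur. We check in full that `S` is a positive polytope
with five facets: the polytope is simple, `S` is the closure of its interior, and the irreducible
components of the Zariski closure of the boundary are the five sections of `Gr(2,4)` by `p₁₂ = 0`,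
`p₁₄ = 0`, `p₂₃ = 0`, `p₃₄ = 0` and `h = 0`. All the five sections are cones over `ℙ¹ × ℙ¹` and have a
polynomial parametrisation.
-/

set_option autoImplicit false

open MvPolynomial Set Topology
open scoped LinearAlgebra.Projectivization

namespace Pool.Agent.Results.MP_7a7825_ag.DisconnectedPentahedron

/-! ## Definitions -/

/-- The vector space of Plücker coordinates `(p₁₂, p₁₃, p₂₃, p₁₄, p₂₄, p₃₄)`. -/
abbrev V : Type := Fin 6 → ℝ

/-- The real projective space `ℙ⁵`. -/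
abbrev P5 : Type := ℙ ℝ V

/-- The Euclidean topology of `ℙ⁵`: the quotient topology of the nonzero vectors. -/
noncomputable instance : TopologicalSpace P5 :=
  TopologicalSpace.coinduced (fun v : {v : V // v ≠ 0} => Projectivization.mk ℝ v.1 v.2) inferInstance

/-- The Plücker relation `p₁₂ p₃₄ - p₁₃ p₂₄ + p₁₄ p₂₃`. -/
def plucker (v : V) : ℝ := v 0 * v 5 - v 1 * v 4 + v 3 * v 2

/-- The real Grassmannian `Gr(2,4)`. -/
def Gr : Set P5 := {x | plucker x.rep = 0}

/-- The six Plücker coordinates and the forms `h₁, …, h_m`. -/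
def form {m : ℕ} (h : Fin m → V →ₗ[ℝ] ℝ) : Fin 6 ⊕ Fin m → V →ₗ[ℝ] ℝ :=
  Sum.elim (fun i => LinearMap.proj i) h

/-- The subset of `ℙ⁵` given by the inequalities `p_ij ≥ 0`, `h_i ≥ 0`, that is (sign convention) by
`l l' ≥ 0` for all pairs of these forms. -/
def polytope {m : ℕ} (h : Fin m → V →ₗ[ℝ] ℝ) : Set P5 :=
  {x | ∀ i j, 0 ≤ form h i x.rep * form h j x.rep}

/-- The inequalities define a full-dimensional polytope, each of the `m + 6` hyperplanes
`p_ij = 0`, `h_i = 0` carries a facet, and the arrangement of these hyperplanes is simple: any at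
most six of the forms are linearly independent. -/
structure IsSimplePolytope {m : ℕ} (h : Fin m → V →ₗ[ℝ] ℝ) : Prop where
  full : ∃ v, ∀ i, 0 < form h i v
  facet : ∀ i, ∃ v, form h i v = 0 ∧ ∀ j, j ≠ i → 0 < form h j v
  simple : ∀ s : Finset (Fin 6 ⊕ Fin m), s.card ≤ 6 → LinearIndependent ℝ (fun i : s => form h i)

/-- The interior of `S` in the subspace `Y` of `ℙ⁵`. -/
def relInt (Y S : Set P5) : Set P5 := {x | x ∈ Y ∧ ∃ U, IsOpen U ∧ x ∈ U ∧ U ∩ Y ⊆ S}

/-- The boundary `∂S` of `S` in the Grassmannian. -/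
def bdry (S : Set P5) : Set P5 := S \ relInt Gr S

/-- The Zariski closure of a set of real points of `ℙ⁵`. -/
def zariskiClosure (A : Set P5) : Set P5 :=
  {x | ∀ (d : ℕ) (F : MvPolynomial (Fin 6) ℝ), F.IsHomogeneous d →
    (∀ y ∈ A, eval y.rep F = 0) → eval x.rep F = 0}

/-- Zariski closed sets. -/
def IsZariskiClosed (A : Set P5) : Prop := zariskiClosure A = A

/-- Irreducible sets. -/
def IsIrred (C : Set P5) : Prop :=
  C.Nonempty ∧ ∀ A B, IsZariskiClosed A → IsZariskiClosed B → C ⊆ A ∪ B → C ⊆ A ∨ C ⊆ B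

/-- The irreducible components of a Zariski closed set: the maximal irreducible Zariski closed
subsets. -/
def components (Z : Set P5) : Set (Set P5) :=
  {C | (IsZariskiClosed C ∧ IsIrred C ∧ C ⊆ Z) ∧
    ∀ C', IsZariskiClosed C' → IsIrred C' → C' ⊆ Z → C ⊆ C' → C' = C}

/-- The set `C_{≥ 0}`: the closure of the interior of `C ∩ S` in `C`. -/
def facet (S C : Set P5) : Set P5 := closure (relInt C (C ∩ S))

/-- The points where the linear form `l` vanishes. -/
def hyperplane (l : V →ₗ[ℝ] ℝ) : Set P5 := {x | l x.rep = 0}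

/-- The indices of the coordinates `p₁₂, p₁₄, p₂₃, p₃₄`. -/
def outer : Fin 4 → Fin 6 := ![0, 3, 2, 5]

/-- `S = P ∩ Gr(2,4)` is a positive polytope: `P` is a simple polytope whose `m + 6` facets lie on
`p_ij = 0` and `h_i = 0`, the set `S` is the closure of its interior, and it has exactly `m + 4`
(nonempty) facets, one on each of `p₁₂ = 0`, `p₁₄ = 0`, `p₂₃ = 0`, `p₃₄ = 0` and `h_i = 0`. -/
structure IsPositivePolytope {m : ℕ} (h : Fin m → V →ₗ[ℝ] ℝ) (S : Set P5) : Prop where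
  eq : S = polytope h ∩ Gr
  simple : IsSimplePolytope h
  regular : closure (relInt Gr S) = S
  facets : ∃ C : Fin 4 ⊕ Fin m → Set P5, Function.Injective C ∧
    range C = components (zariskiClosure (bdry S)) ∧
    ∀ i, C i ⊆ hyperplane (form h (Sum.map outer id i)) ∧ (facet S (C i)).Nonempty

/-! ## Representatives -/

/-- The point of `ℙ⁵` given by a nonzero vector. -/
noncomputable def pt (v : V) (hv : v ≠ 0) : P5 := Projectivization.mk ℝ v hv

lemma rep_pt (v : V) (hv : v ≠ 0) : ∃ c : ℝ, c ≠ 0 ∧ (pt v hv).rep = c • v := by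
  obtain ⟨a, ha⟩ := Projectivization.exists_smul_eq_mk_rep ℝ v hv
  exact ⟨a, a.ne_zero, ha.symm⟩

lemma pt_rep (x : P5) : pt x.rep x.rep_nonzero = x := Projectivization.mk_rep x

lemma continuous_pt : Continuous fun v : {v : V // v ≠ 0} => pt v.1 v.2 := continuous_coinduced_rng

lemma isOpen_iff (A : Set P5) : IsOpen A ↔ IsOpen {v : V | ∃ hv : v ≠ 0, pt v hv ∈ A} := by
  have h1 : IsOpen A ↔ IsOpen ((fun v : {v : V // v ≠ 0} => pt v.1 v.2) ⁻¹' A) :=
    isOpen_coinduced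
  rw [h1]
  have h2 : IsOpenEmbedding (Subtype.val : {v : V // v ≠ 0} → V) :=
    (isOpen_compl_singleton (x := (0 : V))).isOpenEmbedding_subtypeVal
  rw [h2.isOpen_iff_image_isOpen]
  have h3 : Subtype.val '' ((fun v : {v : V // v ≠ 0} => pt v.1 v.2) ⁻¹' A) =
      {v : V | ∃ hv : v ≠ 0, pt v hv ∈ A} := by
    ext v
    constructor
    · rintro ⟨⟨w, hw⟩, h, rfl⟩
      exact ⟨hw, h⟩
    · rintro ⟨hv, h⟩
      exact ⟨⟨v, hv⟩, h, rfl⟩
  rw [h3]

lemma plucker_smul (c : ℝ) (v : V) : plucker (c • v) = c ^ 2 * plucker v := by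
  simp only [plucker, Pi.smul_apply, smul_eq_mul]; ring

lemma pt_mem_Gr (v : V) (hv : v ≠ 0) : pt v hv ∈ Gr ↔ plucker v = 0 := by
  obtain ⟨c, hc, h⟩ := rep_pt v hv
  rw [Gr, mem_ofPred_eq, h, plucker_smul, mul_eq_zero, or_iff_right (pow_ne_zero 2 hc)]

lemma pt_mem_hyperplane (l : V →ₗ[ℝ] ℝ) (v : V) (hv : v ≠ 0) :
    pt v hv ∈ hyperplane l ↔ l v = 0 := by
  obtain ⟨c, hc, h⟩ := rep_pt v hv
  rw [hyperplane, mem_ofPred_eq, h, map_smul, smul_eq_mul, mul_eq_zero, or_iff_right hc]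

lemma pt_mem_polytope {m : ℕ} (h : Fin m → V →ₗ[ℝ] ℝ) (v : V) (hv : v ≠ 0) :
    pt v hv ∈ polytope h ↔ ∀ i j, 0 ≤ form h i v * form h j v := by
  obtain ⟨c, hc, e⟩ := rep_pt v hv
  rw [polytope, mem_ofPred_eq, e]
  refine forall_congr' fun i => forall_congr' fun j => ?_
  rw [map_smul, map_smul, smul_eq_mul, smul_eq_mul]
  have : c * form h i v * (c * form h j v) = c ^ 2 * (form h i v * form h j v) := by ring
  rw [this]
  exact mul_nonneg_iff_of_pos_left (by positivity)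

lemma eval_smul {F : MvPolynomial (Fin 6) ℝ} {d : ℕ} (hF : F.IsHomogeneous d) (c : ℝ) (v : V) :
    eval (c • v) F = c ^ d * eval v F := by
  rw [eval_eq', eval_eq', Finset.mul_sum]
  refine Finset.sum_congr rfl fun e he => ?_
  have h1 : ∑ i, e i = d := by
    have := hF (MvPolynomial.mem_support_iff.mp he)
    rw [← this, Finsupp.weight_apply, Finsupp.sum_fintype]
    · simp
    · simp
  simp only [Pi.smul_apply, smul_eq_mul, mul_pow, Finset.prod_mul_distrib]
  rw [Finset.prod_pow_eq_pow_sum, h1]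
  ring

lemma eval_rep_iff {F : MvPolynomial (Fin 6) ℝ} {d : ℕ} (hF : F.IsHomogeneous d) (v : V)
    (hv : v ≠ 0) : eval (pt v hv).rep F = 0 ↔ eval v F = 0 := by
  obtain ⟨c, hc, h⟩ := rep_pt v hv
  rw [h, eval_smul hF, mul_eq_zero, or_iff_right (pow_ne_zero d hc)]

/-! ## Zariski closed sets -/

lemma subset_zariskiClosure (A : Set P5) : A ⊆ zariskiClosure A := fun _ hx _ _ _ h => h _ hx

lemma zariskiClosure_mono {A B : Set P5} (h : A ⊆ B) : zariskiClosure A ⊆ zariskiClosure B :=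
  fun _ hx d F hF hB => hx d F hF fun y hy => hB y (h hy)

lemma isZariskiClosed_of {A : Set P5} (h : zariskiClosure A ⊆ A) : IsZariskiClosed A :=
  Subset.antisymm h (subset_zariskiClosure A)

lemma isZariskiClosed_closure (A : Set P5) : IsZariskiClosed (zariskiClosure A) :=
  isZariskiClosed_of fun _ hx d F hF hA => hx d F hF fun _ hy => hy d F hF hA

lemma isZariskiClosed_union {A B : Set P5} (hA : IsZariskiClosed A) (hB : IsZariskiClosed B) :
    IsZariskiClosed (A ∪ B) := by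
  refine isZariskiClosed_of fun x hx => ?_
  by_contra hcon
  rw [mem_union, not_or] at hcon
  obtain ⟨h1, h2⟩ := hcon
  rw [← hA] at h1
  rw [← hB] at h2
  simp only [zariskiClosure, mem_ofPred_eq, not_forall] at h1 h2
  obtain ⟨d, F, hF, hFA, hFx⟩ := h1
  obtain ⟨e, G, hG, hGB, hGx⟩ := h2
  have := hx (d + e) (F * G) (hF.mul hG) (by
    rintro y (hy | hy)
    · rw [map_mul, hFA y hy, zero_mul]
    · rw [map_mul, hGB y hy, mul_zero])
  rw [map_mul] at this
  exact (mul_ne_zero hFx hGx) this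

lemma isZariskiClosed_empty : IsZariskiClosed (∅ : Set P5) := by
  refine isZariskiClosed_of fun x hx => ?_
  have := hx 0 1 (isHomogeneous_one _ _) (by simp)
  simp at this

lemma isZariskiClosed_iUnion {ι : Type} [Finite ι] {A : ι → Set P5}
    (hA : ∀ i, IsZariskiClosed (A i)) : IsZariskiClosed (⋃ i, A i) := by
  classical
  have := Fintype.ofFinite ι
  have key : ∀ s : Finset ι, IsZariskiClosed (⋃ i ∈ s, A i) := by
    intro s
    induction s using Finset.induction_on with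
    | empty => simpa using isZariskiClosed_empty
    | insert a s _ ih =>
      rw [Finset.set_biUnion_insert]
      exact isZariskiClosed_union (hA a) ih
  have h := key Finset.univ
  simpa using h

lemma irred_iUnion {ι : Type} [Finite ι] {A : ι → Set P5} (hA : ∀ i, IsZariskiClosed (A i))
    {C : Set P5} (hC : IsIrred C) (hsub : C ⊆ ⋃ i, A i) : ∃ i, C ⊆ A i := by
  classical
  have := Fintype.ofFinite ι
  have key : ∀ s : Finset ι, C ⊆ ⋃ i ∈ s, A i → ∃ i, C ⊆ A i := by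
    intro s
    induction s using Finset.induction_on with
    | empty =>
      intro h
      obtain ⟨x, hx⟩ := hC.1
      simpa using h hx
    | insert a s _ ih =>
      intro h
      rw [Finset.set_biUnion_insert] at h
      have h2 : IsZariskiClosed (⋃ i ∈ s, A i) := by
        have := isZariskiClosed_iUnion (A := fun i : s => A i) fun i => hA i
        rwa [iUnion_subtype] at this
      rcases hC.2 _ _ (hA a) h2 h with h | h
      · exact ⟨a, h⟩
      · exact ih h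
  exact key Finset.univ (by simpa using hsub)

/-- A union of finitely many irreducible Zariski closed sets, none of which contains another. -/
lemma components_iUnion {ι : Type} [Finite ι] {A : ι → Set P5} (hA : ∀ i, IsZariskiClosed (A i))
    (hI : ∀ i, IsIrred (A i)) (hne : ∀ i j, A i ⊆ A j → i = j) :
    components (⋃ i, A i) = range A := by
  ext C
  constructor
  · rintro ⟨⟨h1, h2, h3⟩, h4⟩
    obtain ⟨i, hi⟩ := irred_iUnion hA h2 h3
    exact ⟨i, h4 (A i) (hA i) (hI i) (subset_iUnion A i) hi⟩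
  · rintro ⟨i, rfl⟩
    refine ⟨⟨hA i, hI i, subset_iUnion A i⟩, fun C' h1 h2 h3 h4 => ?_⟩
    obtain ⟨j, hj⟩ := irred_iUnion hA h2 h3
    have := hne i j (h4.trans hj)
    subst this
    exact Subset.antisymm hj h4

/-! ## The quadrics `Gr ∩ {l = 0}` -/

/-- The polynomial of a linear form. -/
noncomputable def linPoly (l : V →ₗ[ℝ] ℝ) : MvPolynomial (Fin 6) ℝ :=
  ∑ i, C (l (Pi.single i 1)) * X i

lemma eval_linPoly (l : V →ₗ[ℝ] ℝ) (v : V) : eval v (linPoly l) = l v := by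
  have : v = ∑ i, v i • (Pi.single i 1 : V) := by
    ext j
    simp [Finset.sum_apply, Pi.single_apply]
  conv_rhs => rw [this]
  simp only [linPoly, map_sum, map_mul, eval_C, eval_X, map_smul, smul_eq_mul]
  exact Finset.sum_congr rfl fun i _ => mul_comm _ _

lemma linPoly_hom (l : V →ₗ[ℝ] ℝ) : (linPoly l).IsHomogeneous 1 := by
  refine IsHomogeneous.sum _ _ _ fun i _ => ?_
  simpa using (isHomogeneous_C (Fin 6) (l (Pi.single i 1))).mul (isHomogeneous_X ℝ i)

/-- The Plücker polynomial. -/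
noncomputable def plPoly : MvPolynomial (Fin 6) ℝ := X 0 * X 5 - X 1 * X 4 + X 3 * X 2

lemma eval_plPoly (v : V) : eval v plPoly = plucker v := by
  simp [plPoly, plucker]

lemma plPoly_hom : plPoly.IsHomogeneous 2 := by
  unfold plPoly
  exact (((isHomogeneous_X ℝ 0).mul (isHomogeneous_X ℝ 5)).sub
    ((isHomogeneous_X ℝ 1).mul (isHomogeneous_X ℝ 4))).add
    ((isHomogeneous_X ℝ 3).mul (isHomogeneous_X ℝ 2))

/-- The section `Gr ∩ {l = 0}`. -/
def sect (l : V →ₗ[ℝ] ℝ) : Set P5 := Gr ∩ hyperplane l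

lemma isZariskiClosed_sect (l : V →ₗ[ℝ] ℝ) : IsZariskiClosed (sect l) := by
  refine isZariskiClosed_of fun x hx => ⟨?_, ?_⟩
  · have := hx 2 plPoly plPoly_hom fun y hy => by rw [eval_plPoly]; exact hy.1
    rwa [eval_plPoly] at this
  · have := hx 1 (linPoly l) (linPoly_hom l) fun y hy => by rw [eval_linPoly]; exact hy.2
    rwa [eval_linPoly] at this

/-- A polynomial parametrisation of the cone over `Gr ∩ {l = 0}`. -/
structure Param (l : V →ₗ[ℝ] ℝ) where
  Φ : Fin 6 → MvPolynomial (Fin 5) ℝ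
  mem : ∀ u, plucker (fun j => eval u (Φ j)) = 0 ∧ l (fun j => eval u (Φ j)) = 0
  surj : ∀ v, plucker v = 0 → l v = 0 → ∃ u, (fun j => eval u (Φ j)) = v
  u₀ : Fin 5 → ℝ
  ne : (fun j => eval u₀ (Φ j)) ≠ (0 : V)

namespace Param

variable {l : V →ₗ[ℝ] ℝ} (p : Param l)

/-- The parametrisation. -/
noncomputable def φ (u : Fin 5 → ℝ) : V := fun j => eval u (p.Φ j)

lemma eval_bind (u : Fin 5 → ℝ) (F : MvPolynomial (Fin 6) ℝ) :
    eval u (bind₁ p.Φ F) = eval (p.φ u) F := by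
  rw [eval, eval₂Hom_bind₁]
  rfl

lemma pt_mem (u : Fin 5 → ℝ) (hu : p.φ u ≠ 0) : pt (p.φ u) hu ∈ sect l :=
  ⟨(pt_mem_Gr _ _).mpr (p.mem u).1, (pt_mem_hyperplane _ _ _).mpr (p.mem u).2⟩

lemma exists_u {x : P5} (hx : x ∈ sect l) : ∃ u, p.φ u = x.rep := p.surj _ hx.1 hx.2

include p in
lemma irred : IsIrred (sect l) := by
  refine ⟨⟨_, p.pt_mem p.u₀ p.ne⟩, fun A B hA hB hsub => ?_⟩
  by_contra hcon
  rw [not_or, not_subset, not_subset] at hcon
  obtain ⟨⟨x, hx, hxA⟩, ⟨y, hy, hyB⟩⟩ := hcon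
  rw [← hA] at hxA
  rw [← hB] at hyB
  simp only [zariskiClosure, mem_ofPred_eq, not_forall] at hxA hyB
  obtain ⟨d, F, hF, hFA, hFx⟩ := hxA
  obtain ⟨e, G, hG, hGB, hGy⟩ := hyB
  have key : bind₁ p.Φ (F * G) * ∑ j, p.Φ j ^ 2 = 0 := by
    refine MvPolynomial.funext fun u => ?_
    rw [map_mul, map_zero, p.eval_bind]
    by_cases hu : p.φ u = 0
    · have : eval u (∑ j, p.Φ j ^ 2) = 0 := by
        rw [map_sum]
        refine Finset.sum_eq_zero fun j _ => ?_
        rw [map_pow]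
        have := congrFun hu j
        rw [show eval u (p.Φ j) = 0 from this]
        norm_num
      rw [this, mul_zero]
    · have h1 := hsub (p.pt_mem u hu)
      have h2 : eval (p.φ u) (F * G) = 0 := by
        rw [map_mul]
        rcases h1 with h | h
        · rw [(eval_rep_iff hF _ hu).mp (hFA _ h), zero_mul]
        · rw [(eval_rep_iff hG _ hu).mp (hGB _ h), mul_zero]
      rw [h2, zero_mul]
  rw [map_mul, mul_eq_zero, mul_eq_zero] at key
  rcases key with (h | h) | h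
  · obtain ⟨u, hu⟩ := p.exists_u hx
    apply hFx
    rw [← hu, ← p.eval_bind, h, map_zero]
  · obtain ⟨u, hu⟩ := p.exists_u hy
    apply hGy
    rw [← hu, ← p.eval_bind, h, map_zero]
  · apply p.ne
    have h1 := congrArg (eval p.u₀) h
    rw [map_sum, map_zero] at h1
    ext j
    have h2 := (Finset.sum_eq_zero_iff_of_nonneg (fun i _ => by
      rw [map_pow]; exact sq_nonneg _)).mp h1 j (Finset.mem_univ j)
    rw [map_pow] at h2
    exact pow_eq_zero_iff two_ne_zero |>.mp h2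

lemma dense {T : Set P5} {O : Set (Fin 5 → ℝ)} (hO : IsOpen O) (hne : O.Nonempty)
    (hT : ∀ u ∈ O, ∃ hu : p.φ u ≠ 0, pt (p.φ u) hu ∈ T) : sect l ⊆ zariskiClosure T := by
  intro x hx d F hF hFT
  obtain ⟨u, hu⟩ := p.exists_u hx
  obtain ⟨w, hw⟩ := hne
  obtain ⟨ε, hε, hball⟩ := Metric.isOpen_iff.mp hO w hw
  have key : bind₁ p.Φ F = 0 := by
    refine MvPolynomial.funext_set (fun i => Ioo (w i - ε / 2) (w i + ε / 2))
      (fun i => Ioo_infinite (by linarith)) fun y hy => ?_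
    rw [map_zero, p.eval_bind]
    have hy' : y ∈ O := by
      apply hball
      rw [Metric.mem_ball, dist_pi_lt_iff hε]
      intro i
      have := hy i (mem_univ i)
      rw [Real.dist_eq, abs_lt]
      constructor <;> linarith [this.1, this.2]
    obtain ⟨hu', hmem⟩ := hT y hy'
    exact (eval_rep_iff hF _ hu').mp (hFT _ hmem)
  rw [← hu, ← p.eval_bind, key, map_zero]

lemma continuous_φ : Continuous p.φ := by
  unfold φ
  exact continuous_pi fun j => MvPolynomial.continuous_eval _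

end Param

/-- Matrices of rank at most one. -/
lemma rank_one {m₁ m₂ m₃ m₄ : ℝ} (h : m₁ * m₄ = m₂ * m₃) :
    ∃ a b c d : ℝ, a * c = m₁ ∧ a * d = m₂ ∧ b * c = m₃ ∧ b * d = m₄ := by
  by_cases h1 : m₁ = 0
  · by_cases h2 : m₂ = 0
    · exact ⟨0, 1, m₃, m₄, by simp [h1], by simp [h2], by simp, by simp⟩
    · have h3 : m₃ = 0 := by
        rw [h1, zero_mul] at h
        exact (mul_eq_zero.mp h.symm).resolve_left h2
      exact ⟨1, m₄ / m₂, 0, m₂, by simp [h1], by simp, by simp [h3], by field_simp⟩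
  · refine ⟨1, m₃ / m₁, m₁, m₂, by simp, by simp, by field_simp, ?_⟩
    field_simp
    linarith

/-! ## The polytope -/

/-- The linear form `h = 4 (p₁₂ + p₃₄) - 5 (p₁₃ + p₂₄) - 3 (p₁₄ + p₂₃)`. -/
noncomputable def hh : V →ₗ[ℝ] ℝ :=
  (4 : ℝ) • ((LinearMap.proj 0 : V →ₗ[ℝ] ℝ) + LinearMap.proj 5) -
    (5 : ℝ) • ((LinearMap.proj 1 : V →ₗ[ℝ] ℝ) + LinearMap.proj 4) -
    (3 : ℝ) • ((LinearMap.proj 3 : V →ₗ[ℝ] ℝ) + LinearMap.proj 2)

lemma hh_apply (v : V) : hh v = 4 * (v 0 + v 5) - 5 * (v 1 + v 4) - 3 * (v 3 + v 2) := by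
  simp [hh]; ring

/-- The family with the single form `h`. -/
noncomputable def H : Fin 1 → V →ₗ[ℝ] ℝ := fun _ => hh

@[simp] lemma form_inl (i : Fin 6) (v : V) : form H (Sum.inl i) v = v i := rfl

@[simp] lemma form_inr (i : Fin 1) (v : V) : form H (Sum.inr i) v = hh v := rfl

lemma forall_form (P : Fin 6 ⊕ Fin 1 → Prop) : (∀ i, P i) ↔
    P (Sum.inl 0) ∧ P (Sum.inl 1) ∧ P (Sum.inl 2) ∧ P (Sum.inl 3) ∧ P (Sum.inl 4) ∧
      P (Sum.inl 5) ∧ P (Sum.inr 0) := by
  constructor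
  · intro h; exact ⟨h _, h _, h _, h _, h _, h _, h _⟩
  · rintro ⟨h0, h1, h2, h3, h4, h5, h6⟩ i
    rcases i with i | i
    · fin_cases i <;> assumption
    · fin_cases i; assumption

/-- All the forms are positive. -/
def Pos (v : V) : Prop := ∀ i, 0 < form H i v

/-- All the forms are nonnegative. -/
def Nonneg (v : V) : Prop := ∀ i, 0 ≤ form H i v

lemma pos_iff (v : V) : Pos v ↔ 0 < v 0 ∧ 0 < v 1 ∧ 0 < v 2 ∧ 0 < v 3 ∧ 0 < v 4 ∧ 0 < v 5 ∧
    0 < 4 * (v 0 + v 5) - 5 * (v 1 + v 4) - 3 * (v 3 + v 2) := by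
  rw [Pos, forall_form]; simp only [form_inl, form_inr, hh_apply]

lemma nonneg_iff (v : V) : Nonneg v ↔ 0 ≤ v 0 ∧ 0 ≤ v 1 ∧ 0 ≤ v 2 ∧ 0 ≤ v 3 ∧ 0 ≤ v 4 ∧ 0 ≤ v 5 ∧
    0 ≤ 4 * (v 0 + v 5) - 5 * (v 1 + v 4) - 3 * (v 3 + v 2) := by
  rw [Nonneg, forall_form]; simp only [form_inl, form_inr, hh_apply]

lemma pt_neg (v : V) (hv : v ≠ 0) : pt (-v) (neg_ne_zero.mpr hv) = pt v hv := by
  unfold pt
  rw [Projectivization.mk_eq_mk_iff']
  exact ⟨-1, by simp⟩

lemma mem_polytope_of_nonneg {v : V} (hv : v ≠ 0) (h : Nonneg v) : pt v hv ∈ polytope H :=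
  (pt_mem_polytope _ _ _).mpr fun i j => mul_nonneg (h i) (h j)

lemma exists_rep {x : P5} (hx : x ∈ polytope H) : ∃ (v : V) (hv : v ≠ 0), x = pt v hv ∧ Nonneg v := by
  obtain ⟨i, hi⟩ := Function.ne_iff.mp x.rep_nonzero
  rcases lt_or_gt_of_ne hi with h | h
  · refine ⟨-x.rep, neg_ne_zero.mpr x.rep_nonzero, ?_, fun j => ?_⟩
    · exact ((pt_neg x.rep x.rep_nonzero).trans (pt_rep x)).symm
    · have h1 := hx (Sum.inl i) j
      rw [form_inl] at h1
      rw [map_neg]
      have h2 : x.rep i < 0 := h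
      by_contra hcon
      push Not at hcon
      nlinarith
  · refine ⟨x.rep, x.rep_nonzero, (pt_rep x).symm, fun j => ?_⟩
    have h1 := hx (Sum.inl i) j
    rw [form_inl] at h1
    have h2 : 0 < x.rep i := h
    by_contra hcon
    push Not at hcon
    nlinarith

lemma continuous_form (i : Fin 6 ⊕ Fin 1) : Continuous fun v : V => form H i v :=
  LinearMap.continuous_of_finiteDimensional _

/-- Open sets given by strict inequalities. -/
lemma isOpen_strict (J : Finset (Fin 6 ⊕ Fin 1)) :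
    IsOpen {x : P5 | ∀ i ∈ J, ∀ j ∈ J, 0 < form H i x.rep * form H j x.rep} := by
  rw [isOpen_iff]
  have : {v : V | ∃ hv : v ≠ 0, pt v hv ∈
      {x : P5 | ∀ i ∈ J, ∀ j ∈ J, 0 < form H i x.rep * form H j x.rep}} =
      {v | v ≠ 0} ∩ ⋂ i ∈ J, ⋂ j ∈ J, {v | 0 < form H i v * form H j v} := by
    ext v
    simp only [mem_ofPred_eq, mem_inter_iff, mem_iInter]
    constructor
    · rintro ⟨hv, h⟩
      refine ⟨hv, fun i hi j hj => ?_⟩
      obtain ⟨c, hc, e⟩ := rep_pt v hv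
      have := h i hi j hj
      rw [e, map_smul, map_smul, smul_eq_mul, smul_eq_mul] at this
      have e2 : c * form H i v * (c * form H j v) = c ^ 2 * (form H i v * form H j v) := by ring
      rw [e2] at this
      exact (mul_pos_iff_of_pos_left (by positivity)).mp this
    · rintro ⟨hv, h⟩
      refine ⟨hv, fun i hi j hj => ?_⟩
      obtain ⟨c, hc, e⟩ := rep_pt v hv
      rw [e, map_smul, map_smul, smul_eq_mul, smul_eq_mul]
      have e2 : c * form H i v * (c * form H j v) = c ^ 2 * (form H i v * form H j v) := by ring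
      rw [e2]
      exact mul_pos (by positivity) (h i hi j hj)
  rw [this]
  refine isOpen_compl_singleton.inter ?_
  refine isOpen_biInter_finset fun i _ => isOpen_biInter_finset fun j _ => ?_
  exact isOpen_lt continuous_const ((continuous_form i).mul (continuous_form j))

/-- The semialgebraic set. -/
def S : Set P5 := polytope H ∩ Gr

lemma relInt_of_pos {v : V} (hv : v ≠ 0) (h : Pos v) (hp : plucker v = 0) :
    pt v hv ∈ relInt Gr S := by
  refine ⟨(pt_mem_Gr _ _).mpr hp, _, isOpen_strict Finset.univ, ?_, ?_⟩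
  · intro i _ j _
    obtain ⟨c, hc, e⟩ := rep_pt v hv
    rw [e, map_smul, map_smul, smul_eq_mul, smul_eq_mul]
    have e2 : c * form H i v * (c * form H j v) = c ^ 2 * (form H i v * form H j v) := by ring
    rw [e2]
    exact mul_pos (by positivity) (mul_pos (h i) (h j))
  · rintro x ⟨hx, hxG⟩
    exact ⟨fun i j => (hx i (Finset.mem_univ i) j (Finset.mem_univ j)).le, hxG⟩

/-- The five forms whose hyperplanes carry facets. -/
def idx : Fin 4 ⊕ Fin 1 → Fin 6 ⊕ Fin 1 := Sum.map outer id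

lemma forall_idx (P : Fin 4 ⊕ Fin 1 → Prop) : (∀ i, P i) ↔
    P (Sum.inl 0) ∧ P (Sum.inl 1) ∧ P (Sum.inl 2) ∧ P (Sum.inl 3) ∧ P (Sum.inr 0) := by
  constructor
  · intro h; exact ⟨h _, h _, h _, h _, h _⟩
  · rintro ⟨h0, h1, h2, h3, h4⟩ i
    rcases i with i | i
    · fin_cases i <;> assumption
    · fin_cases i; assumption

lemma bdry_subset : bdry S ⊆ ⋃ i, sect (form H (idx i)) := by
  rintro x ⟨⟨hx, hxG⟩, hni⟩
  obtain ⟨v, hv, rfl, hn⟩ := exists_rep hx
  have hp := (pt_mem_Gr _ _).mp hxG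
  by_contra hcon
  rw [mem_iUnion, not_exists] at hcon
  apply hni
  refine relInt_of_pos hv ?_ hp
  have h1 : ∀ i, form H (idx i) v ≠ 0 := fun i h =>
    hcon i ⟨hxG, (pt_mem_hyperplane _ _ _).mpr h⟩
  rw [forall_idx] at h1
  obtain ⟨h0, h3, h2, h5, h6⟩ := h1
  have h0 : v 0 ≠ 0 := h0
  have h3 : v 3 ≠ 0 := h3
  have h2 : v 2 ≠ 0 := h2
  have h5 : v 5 ≠ 0 := h5
  have h6 : hh v ≠ 0 := h6
  rw [hh_apply] at h6
  rw [nonneg_iff] at hn
  rw [pos_iff]
  obtain ⟨n0, n1, n2, n3, n4, n5, n6⟩ := hn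
  have p0 := lt_of_le_of_ne n0 h0.symm
  have p2 := lt_of_le_of_ne n2 h2.symm
  have p3 := lt_of_le_of_ne n3 h3.symm
  have p5 := lt_of_le_of_ne n5 h5.symm
  have p6 := lt_of_le_of_ne n6 h6.symm
  unfold plucker at hp
  have h7 : 0 < v 1 * v 4 := by nlinarith [mul_pos p0 p5, mul_pos p3 p2]
  have p1 : 0 < v 1 := lt_of_le_of_ne n1 fun h => by rw [← h] at h7; simp at h7
  have p4 : 0 < v 4 := lt_of_le_of_ne n4 fun h => by rw [← h] at h7; simp at h7
  exact ⟨p0, p1, p2, p3, p4, p5, p6⟩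

/-- The points of the section `Gr ∩ {form i = 0}` at which the other forms are positive. -/
def T (i : Fin 6 ⊕ Fin 1) : Set P5 :=
  {x | ∃ (v : V) (hv : v ≠ 0), x = pt v hv ∧ plucker v = 0 ∧ form H i v = 0 ∧
    ∀ j, j ≠ i → 0 < form H j v}

lemma T_subset_S (i : Fin 6 ⊕ Fin 1) : T i ⊆ S := by
  rintro _ ⟨v, hv, rfl, hp, h0, hj⟩
  refine ⟨mem_polytope_of_nonneg hv fun j => ?_, (pt_mem_Gr _ _).mpr hp⟩
  by_cases h : j = i
  · rw [h, h0]
  · exact (hj j h).le

lemma T_subset_sect (i : Fin 6 ⊕ Fin 1) : T i ⊆ sect (form H i) := by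
  rintro _ ⟨v, hv, rfl, hp, h0, hj⟩
  exact ⟨(pt_mem_Gr _ _).mpr hp, (pt_mem_hyperplane _ _ _).mpr h0⟩

lemma T_subset_relInt (i : Fin 6 ⊕ Fin 1) :
    T i ⊆ relInt (sect (form H i)) (sect (form H i) ∩ S) := by
  rintro x hx
  refine ⟨T_subset_sect i hx, _, isOpen_strict (Finset.univ.erase i), ?_, ?_⟩
  · obtain ⟨v, hv, rfl, hp, h0, hj⟩ := hx
    intro j hj1 k hk1
    obtain ⟨c, hc, e⟩ := rep_pt v hv
    rw [e, map_smul, map_smul, smul_eq_mul, smul_eq_mul]
    have e2 : c * form H j v * (c * form H k v) = c ^ 2 * (form H j v * form H k v) := by ring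
    rw [e2]
    exact mul_pos (by positivity) (mul_pos (hj j (Finset.ne_of_mem_erase hj1))
      (hj k (Finset.ne_of_mem_erase hk1)))
  · rintro y ⟨hy, hyG, hy0⟩
    refine ⟨⟨hyG, hy0⟩, ⟨fun j k => ?_, hyG⟩⟩
    have hy0' : form H i y.rep = 0 := hy0
    by_cases h1 : j = i
    · rw [h1, hy0', zero_mul]
    · by_cases h2 : k = i
      · rw [h2, hy0', mul_zero]
      · exact (hy j (Finset.mem_erase.mpr ⟨h1, Finset.mem_univ _⟩) k
          (Finset.mem_erase.mpr ⟨h2, Finset.mem_univ _⟩)).le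

/-- A path that leaves `S`. -/
lemma not_relInt {v w : V} (hv : v ≠ 0) (i : Fin 6 ⊕ Fin 1) (h0 : form H i v = 0)
    (hj : ∀ j, j ≠ i → 0 < form H j v) (hw : ∀ s : ℝ, plucker (v + s • w) = 0)
    (hwi : form H i w < 0) : pt v hv ∉ relInt Gr S := by
  rintro ⟨-, U, hU, hvU, hsub⟩
  rw [isOpen_iff] at hU
  have hc : Continuous fun s : ℝ => v + s • w := by fun_prop
  have h1 : ∀ᶠ s in 𝓝 (0 : ℝ), v + s • w ∈ {v : V | ∃ hv : v ≠ 0, pt v hv ∈ U} := by
    refine hc.continuousAt.eventually_mem (hU.mem_nhds ?_)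
    simp only [zero_smul, add_zero]
    exact ⟨hv, hvU⟩
  have hne : ∃ j : Fin 6 ⊕ Fin 1, j ≠ i := by
    by_cases h : i = Sum.inr 0
    · exact ⟨Sum.inl 0, by rw [h]; simp⟩
    · exact ⟨Sum.inr 0, fun h' => h h'.symm⟩
  obtain ⟨j, hji⟩ := hne
  have h2 : ∀ᶠ s in 𝓝 (0 : ℝ), 0 < form H j (v + s • w) := by
    refine ((continuous_form j).comp hc).continuousAt.eventually_const_lt ?_
    simp only [Function.comp, zero_smul, add_zero]
    exact hj j hji
  have h3 := (h1.and h2).filter_mono (nhdsWithin_le_nhds (s := Ioi (0 : ℝ)))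
  obtain ⟨s, ⟨⟨hs0, hsU⟩, hsj⟩, hs⟩ := (h3.and self_mem_nhdsWithin).exists
  have hmem := hsub ⟨hsU, (pt_mem_Gr _ _).mpr (hw s)⟩
  have h4 := (pt_mem_polytope _ _ _).mp hmem.1 i j
  have h5 : form H i (v + s • w) < 0 := by
    rw [map_add, h0, zero_add, map_smul, smul_eq_mul]
    exact mul_neg_of_pos_of_neg hs hwi
  have h6 := mul_neg_of_neg_of_pos h5 hsj
  linarith

/-! ## The five facets -/

/-- Parametrisations of the five sections. -/
noncomputable def param0 : Param (form H (Sum.inl 0)) where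
  Φ := ![0, X 0 * X 2, X 1 * X 2, X 0 * X 3, X 1 * X 3, X 4]
  mem u := by
    constructor
    · simp [plucker]; ring
    · simp
  surj v hp h0 := by
    have h0 : v 0 = 0 := h0
    unfold plucker at hp
    rw [h0] at hp
    obtain ⟨a, b, c, d, h1, h2, h3, h4⟩ := rank_one (m₁ := v 1) (m₂ := v 3) (m₃ := v 2) (m₄ := v 4)
      (by linarith)
    refine ⟨![a, b, c, d, v 5], ?_⟩
    ext j
    fin_cases j <;> simp [h0, h1, h2, h3, h4]
  u₀ := ![1, 1, 1, 1, 10]
  ne h := by
    have := congrFun h 1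
    simp at this

noncomputable def param5 : Param (form H (Sum.inl 5)) where
  Φ := ![X 4, X 0 * X 2, X 1 * X 2, X 0 * X 3, X 1 * X 3, 0]
  mem u := by
    constructor
    · simp [plucker]; ring
    · simp
  surj v hp h0 := by
    have h0 : v 5 = 0 := h0
    unfold plucker at hp
    rw [h0] at hp
    obtain ⟨a, b, c, d, h1, h2, h3, h4⟩ := rank_one (m₁ := v 1) (m₂ := v 3) (m₃ := v 2) (m₄ := v 4)
      (by linarith)
    refine ⟨![a, b, c, d, v 0], ?_⟩
    ext j
    fin_cases j <;> simp [h0, h1, h2, h3, h4]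
  u₀ := ![1, 1, 1, 1, 10]
  ne h := by
    have := congrFun h 1
    simp at this

noncomputable def param3 : Param (form H (Sum.inl 3)) where
  Φ := ![X 0 * X 2, X 0 * X 3, X 4, 0, X 1 * X 2, X 1 * X 3]
  mem u := by
    constructor
    · simp [plucker]; ring
    · simp
  surj v hp h0 := by
    have h0 : v 3 = 0 := h0
    unfold plucker at hp
    rw [h0] at hp
    obtain ⟨a, b, c, d, h1, h2, h3, h4⟩ := rank_one (m₁ := v 0) (m₂ := v 1) (m₃ := v 4) (m₄ := v 5)
      (by linarith)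
    refine ⟨![a, b, c, d, v 2], ?_⟩
    ext j
    fin_cases j <;> simp [h0, h1, h2, h3, h4]
  u₀ := ![10, 1, 10, 1, 1]
  ne h := by
    have := congrFun h 1
    simp at this

noncomputable def param2 : Param (form H (Sum.inl 2)) where
  Φ := ![X 0 * X 2, X 0 * X 3, 0, X 4, X 1 * X 2, X 1 * X 3]
  mem u := by
    constructor
    · simp [plucker]; ring
    · simp
  surj v hp h0 := by
    have h0 : v 2 = 0 := h0
    unfold plucker at hp
    rw [h0] at hp
    obtain ⟨a, b, c, d, h1, h2, h3, h4⟩ := rank_one (m₁ := v 0) (m₂ := v 1) (m₃ := v 4) (m₄ := v 5)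
      (by linarith)
    refine ⟨![a, b, c, d, v 3], ?_⟩
    ext j
    fin_cases j <;> simp [h0, h1, h2, h3, h4]
  u₀ := ![10, 1, 10, 1, 1]
  ne h := by
    have := congrFun h 1
    simp at this

/-- The section by `h = 0`. With `w = a c + b d` and the free parameter `t = p₁₃ + p₂₄`. -/
noncomputable def paramH : Param (form H (Sum.inr 0)) where
  Φ := ![C (1 / 10) * (C 4 * X 4 + C 8 * (X 1 * X 3) - C 2 * (X 0 * X 2)),
    C (1 / 2) * (X 4 + X 1 * X 2 - X 0 * X 3),
    C (1 / 10) * (C 4 * (X 0 * X 2 + X 1 * X 3) - C 3 * X 4 - C 5 * (X 1 * X 2 + X 0 * X 3)),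
    C (1 / 10) * (C 4 * (X 0 * X 2 + X 1 * X 3) - C 3 * X 4 + C 5 * (X 1 * X 2 + X 0 * X 3)),
    C (1 / 2) * (X 4 - X 1 * X 2 + X 0 * X 3),
    C (1 / 10) * (C 4 * X 4 + C 8 * (X 0 * X 2) - C 2 * (X 1 * X 3))]
  mem u := by
    constructor
    · simp [plucker]; ring
    · simp [hh_apply]; ring
  surj v hp h0 := by
    have h0 : hh v = 0 := h0
    rw [hh_apply] at h0
    unfold plucker at hp
    have hv0 : v 0 = (5 * (v 1 + v 4) + 3 * (v 3 + v 2)) / 4 - v 5 := by linarith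
    rw [hv0] at hp
    obtain ⟨a, b, c, d, h1, h2, h3, h4⟩ := rank_one
      (m₁ := ((3 * (v 1 + v 4) + 5 * (v 3 + v 2)) / 4 - (v 0 - v 5)) / 2)
      (m₂ := ((v 3 - v 2) - (v 1 - v 4)) / 2) (m₃ := ((v 1 - v 4) + (v 3 - v 2)) / 2)
      (m₄ := ((3 * (v 1 + v 4) + 5 * (v 3 + v 2)) / 4 + (v 0 - v 5)) / 2) (by
        rw [hv0]; nlinarith)
    refine ⟨![a, b, c, d, v 1 + v 4], ?_⟩
    ext j
    fin_cases j <;> simp [h1, h2, h3, h4] <;> linarith
  u₀ := ![0, 1, 0, 1, 1]
  ne h := by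
    have := congrFun h 1
    simp at this

lemma T_mem (i : Fin 6 ⊕ Fin 1) (p : Param (form H i)) (hi : i ≠ Sum.inl 4)
    (hu : ∀ j, j ≠ i → 0 < form H j (p.φ p.u₀))
    (hw : ∀ v : V, plucker v = 0 → form H i v = 0 → (∀ j, j ≠ i → 0 < form H j v) →
      ∃ w : V, (∀ s : ℝ, plucker (v + s • w) = 0) ∧ form H i w < 0) :
    T i ⊆ bdry S ∧ (T i).Nonempty ∧ sect (form H i) ⊆ zariskiClosure (T i) ∧
      IsIrred (sect (form H i)) := by
  have hne : ∀ v : V, (∀ j, j ≠ i → 0 < form H j v) → v ≠ 0 := by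
    rintro v h rfl
    have : 0 < form H (Sum.inl 4) (0 : V) := h (Sum.inl 4) hi.symm
    simp at this
  refine ⟨?_, ?_, ?_, p.irred⟩
  · intro x hx
    refine ⟨T_subset_S i hx, ?_⟩
    obtain ⟨v, hv, rfl, hp, h0, hj⟩ := hx
    obtain ⟨w, hw1, hw2⟩ := hw v hp h0 hj
    exact not_relInt hv i h0 hj hw1 hw2
  · exact ⟨_, p.φ p.u₀, p.ne, rfl, (p.mem p.u₀).1, (p.mem p.u₀).2, hu⟩
  · refine p.dense (O := {u | ∀ j, j ≠ i → 0 < form H j (p.φ u)}) ?_ ⟨p.u₀, hu⟩ ?_
    · have : {u | ∀ j, j ≠ i → 0 < form H j (p.φ u)} =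
          ⋂ j ∈ (Finset.univ.erase i : Finset (Fin 6 ⊕ Fin 1)), {u | 0 < form H j (p.φ u)} := by
        ext u
        simp only [mem_ofPred_eq, mem_iInter, Finset.mem_erase, Finset.mem_univ, and_true]
      rw [this]
      refine isOpen_biInter_finset fun j _ => ?_
      exact isOpen_lt continuous_const ((continuous_form j).comp p.continuous_φ)
    · intro u hu
      exact ⟨hne _ hu, p.φ u, hne _ hu, rfl, (p.mem u).1, (p.mem u).2, hu⟩

lemma ne_form {i : Fin 6 ⊕ Fin 1} {P : Fin 6 ⊕ Fin 1 → Prop} :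
    (∀ j, j ≠ i → P j) ↔ ((Sum.inl 0 ≠ i → P (Sum.inl 0)) ∧ (Sum.inl 1 ≠ i → P (Sum.inl 1)) ∧
      (Sum.inl 2 ≠ i → P (Sum.inl 2)) ∧ (Sum.inl 3 ≠ i → P (Sum.inl 3)) ∧
      (Sum.inl 4 ≠ i → P (Sum.inl 4)) ∧ (Sum.inl 5 ≠ i → P (Sum.inl 5)) ∧
      (Sum.inr 0 ≠ i → P (Sum.inr 0))) := forall_form _

lemma T_all (i : Fin 4 ⊕ Fin 1) : T (idx i) ⊆ bdry S ∧ (T (idx i)).Nonempty ∧
    sect (form H (idx i)) ⊆ zariskiClosure (T (idx i)) ∧ IsIrred (sect (form H (idx i))) := by
  revert i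
  rw [forall_idx]
  refine ⟨?_, ?_, ?_, ?_, ?_⟩
  · refine T_mem (Sum.inl 0) param0 (by decide) ?_ ?_
    · rw [ne_form]
      simp [Param.φ, param0, hh_apply]
      norm_num
    · intro v hp h0 hj
      have h4 : 0 < v 4 := hj (Sum.inl 4) (by decide)
      refine ⟨![-1, -(v 5 / v 4), 0, 0, 0, 0], fun s => ?_, by simp⟩
      unfold plucker at *
      simp
      field_simp
      linarith
  · refine T_mem (Sum.inl 3) param3 (by decide) ?_ ?_
    · rw [ne_form]
      simp [Param.φ, param3, hh_apply]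
      norm_num
    · intro v hp h0 hj
      have h4 : 0 < v 4 := hj (Sum.inl 4) (by decide)
      refine ⟨![0, -(v 2 / v 4), 0, -1, 0, 0], fun s => ?_, by simp⟩
      unfold plucker at *
      simp
      field_simp
      linarith
  · refine T_mem (Sum.inl 2) param2 (by decide) ?_ ?_
    · rw [ne_form]
      simp [Param.φ, param2, hh_apply]
      norm_num
    · intro v hp h0 hj
      have h4 : 0 < v 4 := hj (Sum.inl 4) (by decide)
      refine ⟨![0, -(v 3 / v 4), -1, 0, 0, 0], fun s => ?_, by simp⟩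
      unfold plucker at *
      simp
      field_simp
      linarith
  · refine T_mem (Sum.inl 5) param5 (by decide) ?_ ?_
    · rw [ne_form]
      simp [Param.φ, param5, hh_apply]
      norm_num
    · intro v hp h0 hj
      have h4 : 0 < v 4 := hj (Sum.inl 4) (by decide)
      refine ⟨![0, -(v 0 / v 4), 0, 0, 0, -1], fun s => ?_, by simp⟩
      unfold plucker at *
      simp
      field_simp
      linarith
  · refine T_mem (Sum.inr 0) paramH (by decide) ?_ ?_
    · rw [ne_form]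
      simp [Param.φ, paramH]
      norm_num
    · intro v hp h0 hj
      have h4 : 0 < v 4 := hj (Sum.inl 4) (by decide)
      have h2 : 0 < v 2 := hj (Sum.inl 2) (by decide)
      refine ⟨![0, v 2 / v 4, 0, 1, 0, 0], fun s => ?_, ?_⟩
      · unfold plucker at *
        simp
        field_simp
        linarith
      · rw [form_inr, hh_apply]
        simp
        have : 0 < v 2 / v 4 := div_pos h2 h4
        linarith

/-! ## The closure of the interior -/

lemma mem_closure_pt {A : Set P5} {v : V} (hv : v ≠ 0) {γ : ℝ → V}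
    (hγ : Filter.Tendsto γ (𝓝[>] 0) (𝓝 v))
    (hA : ∀ᶠ s in 𝓝[>] (0 : ℝ), ∃ h : γ s ≠ 0, pt (γ s) h ∈ A) : pt v hv ∈ closure A := by
  rw [mem_closure_iff]
  intro O hO hvO
  rw [isOpen_iff] at hO
  have h1 := hγ.eventually (hO.mem_nhds ⟨hv, hvO⟩)
  obtain ⟨s, ⟨h2, h3⟩, ⟨h4, h5⟩⟩ := (h1.and hA).exists
  exact ⟨_, h3, h5⟩

/-- The second perturbation. -/
lemma path2 {v : V} (hp : plucker v = 0) (h0 : 0 < v 0) (h1 : 0 ≤ v 1) (h2 : 0 ≤ v 2)
    (h3 : 0 ≤ v 3) (h4 : 0 ≤ v 4) (h5' : 0 ≤ v 5) (hhv : 0 < hh v) :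
    ∃ γ : ℝ → V, Filter.Tendsto γ (𝓝[>] 0) (𝓝 v) ∧
      ∀ᶠ s in 𝓝[>] (0 : ℝ), Pos (γ s) ∧ plucker (γ s) = 0 := by
  set κ : ℝ := 1 / (2 * (1 + v 2 + v 3)) with hκ
  have hden : 0 < 1 + v 2 + v 3 := by linarith
  have hκ0 : 0 < κ := by positivity
  have hκ1 : κ * (v 2 + v 3) ≤ 1 / 2 := by
    rw [hκ, div_mul_eq_mul_div, div_le_iff₀ (by positivity)]
    linarith
  have hκ2 : κ ≤ 1 / 2 := by
    rw [hκ, div_le_iff₀ (by positivity)]
    linarith
  have hv5 : v 5 = (v 1 * v 4 - v 3 * v 2) / v 0 := by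
    unfold plucker at hp
    field_simp
    linarith
  set γ : ℝ → V := fun s => ![v 0, v 1 + s, v 2 + κ * s ^ 2, v 3 + κ * s ^ 2, v 4 + s,
    ((v 1 + s) * (v 4 + s) - (v 3 + κ * s ^ 2) * (v 2 + κ * s ^ 2)) / v 0] with hγ
  have hγ0 : γ 0 = v := by
    ext j
    fin_cases j <;> simp [hγ, hv5]
  have hγc : Continuous γ := by
    refine continuous_pi fun j => ?_
    fin_cases j <;> simp [hγ] <;> fun_prop
  have ht : Filter.Tendsto γ (𝓝[>] 0) (𝓝 v) := by
    have := hγc.continuousAt (x := 0)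
    rw [ContinuousAt, hγ0] at this
    exact this.mono_left nhdsWithin_le_nhds
  refine ⟨γ, ht, ?_⟩
  have e1 : ∀ᶠ s in 𝓝[>] (0 : ℝ), 0 < hh (γ s) := by
    have h5 : Filter.Tendsto (fun s => hh (γ s)) (𝓝[>] 0) (𝓝 (hh v)) :=
      ((continuous_form (Sum.inr 0)).tendsto v).comp ht
    exact h5.eventually_const_lt hhv
  filter_upwards [e1, Ioo_mem_nhdsGT one_pos] with s hs1 hs2
  obtain ⟨hs0, hs1'⟩ := hs2
  have hpos : 0 < (v 1 + s) * (v 4 + s) - (v 3 + κ * s ^ 2) * (v 2 + κ * s ^ 2) := by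
    have e2 : (v 1 + s) * (v 4 + s) - (v 3 + κ * s ^ 2) * (v 2 + κ * s ^ 2) =
        (v 1 * v 4 - v 3 * v 2) + s * (v 1 + v 4) + s ^ 2 * (1 - κ * (v 2 + v 3) - κ ^ 2 * s ^ 2) := by
      ring
    rw [e2]
    have h6 : 0 ≤ v 1 * v 4 - v 3 * v 2 := by
      have : v 1 * v 4 - v 3 * v 2 = v 0 * v 5 := by
        unfold plucker at hp; linarith
      rw [this]; exact mul_nonneg h0.le h5'
    have h8 : κ ^ 2 * s ^ 2 ≤ 1 / 4 := by
      have : κ * s ≤ 1 / 2 := by nlinarith
      nlinarith [mul_pos hκ0 hs0]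
    have h9 : 0 < s ^ 2 * (1 - κ * (v 2 + v 3) - κ ^ 2 * s ^ 2) :=
      mul_pos (by positivity) (by linarith)
    nlinarith [mul_nonneg hs0.le (add_nonneg h1 h4)]
  constructor
  · rw [pos_iff]
    rw [hh_apply] at hs1
    refine ⟨?_, ?_, ?_, ?_, ?_, ?_, hs1⟩
    · simpa [hγ] using h0
    · simp [hγ]; linarith
    · simp [hγ]; nlinarith [mul_pos hκ0 (pow_pos hs0 2)]
    · simp [hγ]; nlinarith [mul_pos hκ0 (pow_pos hs0 2)]
    · simp [hγ]; linarith
    · simp [hγ]; exact div_pos hpos h0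
  · simp only [plucker, hγ]
    simp
    field_simp
    ring

/-- The first perturbation. -/
lemma path1 {v : V} (hn : Nonneg v) (hp : plucker v = 0) (hlt : v 5 < v 0) :
    ∃ γ : ℝ → V, Filter.Tendsto γ (𝓝[>] 0) (𝓝 v) ∧
      ∀ᶠ s in 𝓝[>] (0 : ℝ), (0 < γ s 0 ∧ 0 ≤ γ s 1 ∧ 0 ≤ γ s 2 ∧ 0 ≤ γ s 3 ∧ 0 ≤ γ s 4 ∧
        0 ≤ γ s 5 ∧ 0 < hh (γ s)) ∧ plucker (γ s) = 0 := by
  rw [nonneg_iff] at hn
  obtain ⟨n0, n1, n2, n3, n4, n5, n6⟩ := hn
  set γ : ℝ → V := fun s => ![v 0, (1 - s) * v 1, (1 - s) * v 2, (1 - s) * v 3, (1 - s) * v 4,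
    (1 - s) ^ 2 * v 5] with hγ
  have hγ0 : γ 0 = v := by
    ext j
    fin_cases j <;> simp [hγ]
  have hγc : Continuous γ := by
    refine continuous_pi fun j => ?_
    fin_cases j <;> simp [hγ] <;> fun_prop
  have ht : Filter.Tendsto γ (𝓝[>] 0) (𝓝 v) := by
    have := hγc.continuousAt (x := 0)
    rw [ContinuousAt, hγ0] at this
    exact this.mono_left nhdsWithin_le_nhds
  refine ⟨γ, ht, ?_⟩
  filter_upwards [Ioo_mem_nhdsGT one_pos] with s hs
  obtain ⟨hs0, hs1⟩ := hs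
  have hμ : 0 < 1 - s := by linarith
  refine ⟨⟨?_, ?_, ?_, ?_, ?_, ?_, ?_⟩, ?_⟩
  · simp [hγ]; linarith
  · simpa [hγ] using mul_nonneg hμ.le n1
  · simpa [hγ] using mul_nonneg hμ.le n2
  · simpa [hγ] using mul_nonneg hμ.le n3
  · simpa [hγ] using mul_nonneg hμ.le n4
  · simpa [hγ] using mul_nonneg (sq_nonneg (1 - s)) n5
  · rw [hh_apply]
    simp only [hγ]
    simp
    have e1 := mul_nonneg hμ.le n6
    have e2 : 0 < s * (v 0 - (1 - s) * v 5) := mul_pos hs0 (by nlinarith)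
    nlinarith
  · unfold plucker at *
    simp only [hγ]
    simp
    have : v 0 * ((1 - s) ^ 2 * v 5) - (1 - s) * v 1 * ((1 - s) * v 4) +
        (1 - s) * v 3 * ((1 - s) * v 2) = (1 - s) ^ 2 * (v 0 * v 5 - v 1 * v 4 + v 3 * v 2) := by ring
    rw [this, hp, mul_zero]

lemma closure_core (f : V → V) (hf : Continuous f) (hfp : ∀ v, Pos v → Pos (f v))
    (hfq : ∀ v, plucker (f v) = plucker v) (hf0 : ∀ v, v ≠ 0 → f v ≠ 0) {v : V} (hv : f v ≠ 0)
    (hn : Nonneg v) (hp : plucker v = 0) (hlt : v 5 < v 0) :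
    pt (f v) hv ∈ closure (relInt Gr S) := by
  obtain ⟨γ, ht, hγ⟩ := path1 hn hp hlt
  rw [← closure_closure]
  refine mem_closure_pt hv (γ := fun s => f (γ s)) ((hf.tendsto v).comp ht) ?_
  filter_upwards [hγ] with s hs
  obtain ⟨⟨g0, g1, g2, g3, g4, g5, g6⟩, gp⟩ := hs
  have hne : γ s ≠ 0 := fun h => by rw [h] at g0; simp at g0
  refine ⟨hf0 _ hne, ?_⟩
  obtain ⟨δ, ht', hδ⟩ := path2 gp g0 g1 g2 g3 g4 g5 g6
  refine mem_closure_pt _ (γ := fun s => f (δ s)) ((hf.tendsto _).comp ht') ?_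
  filter_upwards [hδ] with r hr
  have hne' : δ r ≠ 0 := fun h => by
    have := hr.1 (Sum.inl 0)
    rw [h] at this
    simp at this
  exact ⟨hf0 _ hne', relInt_of_pos _ (hfp _ hr.1) (by rw [hfq]; exact hr.2)⟩

/-- The exchange of `p₁₂` and `p₃₄`. -/
def sw (v : V) : V := ![v 5, v 1, v 2, v 3, v 4, v 0]

lemma sw_sw (v : V) : sw (sw v) = v := by
  ext j; fin_cases j <;> simp [sw]

lemma continuous_sw : Continuous sw := by
  refine continuous_pi fun j => ?_
  fin_cases j <;> simp [sw] <;> fun_prop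

lemma sw_ne {v : V} (hv : v ≠ 0) : sw v ≠ 0 := by
  intro h
  apply hv
  rw [← sw_sw v, h]
  ext j; fin_cases j <;> simp [sw]

lemma plucker_sw (v : V) : plucker (sw v) = plucker v := by
  simp [plucker, sw]; ring

lemma pos_sw {v : V} (h : Pos v) : Pos (sw v) := by
  rw [pos_iff] at *
  simp only [sw]
  simp
  obtain ⟨h0, h1, h2, h3, h4, h5, h6⟩ := h
  exact ⟨h5, h1, h2, h3, h4, h0, by linarith⟩

lemma nonneg_sw {v : V} (h : Nonneg v) : Nonneg (sw v) := by
  rw [nonneg_iff] at *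
  simp only [sw]
  simp
  obtain ⟨h0, h1, h2, h3, h4, h5, h6⟩ := h
  exact ⟨h5, h1, h2, h3, h4, h0, by linarith⟩

/-- On the cone over `S` the coordinates `p₁₂` and `p₃₄` are different. -/
lemma ne_of_mem {v : V} (hv : v ≠ 0) (hn : Nonneg v) (hp : plucker v = 0) : v 0 ≠ v 5 := by
  intro h
  rw [nonneg_iff] at hn
  obtain ⟨n0, n1, n2, n3, n4, n5, n6⟩ := hn
  unfold plucker at hp
  rw [← h] at hp n6
  have e1 : v 0 * v 0 ≤ v 1 * v 4 := by nlinarith [mul_nonneg n3 n2]
  have e2 : 5 * (v 1 + v 4) ≤ 8 * v 0 := by nlinarith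
  have e3 : v 0 = 0 := by
    by_contra hne
    have hpos : 0 < v 0 := lt_of_le_of_ne n0 (Ne.symm hne)
    nlinarith [sq_nonneg (v 1 - v 4), mul_self_nonneg (8 * v 0 - 5 * (v 1 + v 4))]
  rw [e3] at e2 n6 h
  apply hv
  ext j
  fin_cases j <;> simp <;> linarith

lemma regular : closure (relInt Gr S) = S := by
  apply Subset.antisymm
  · refine closure_minimal ?_ ?_
    · rintro x ⟨hx, U, -, hxU, hsub⟩
      exact hsub ⟨hxU, hx⟩
    · rw [← isOpen_compl_iff, isOpen_iff]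
      have : {v : V | ∃ hv : v ≠ 0, pt v hv ∈ Sᶜ} = {v | v ≠ 0} ∩
          ({v | plucker v ≠ 0} ∪ ⋃ i, ⋃ j, {v | form H i v * form H j v < 0}) := by
        ext v
        constructor
        · rintro ⟨hv, h⟩
          refine ⟨hv, ?_⟩
          by_contra hcon
          rw [mem_union, not_or] at hcon
          apply h
          refine ⟨(pt_mem_polytope _ _ _).mpr fun i j => ?_,
            (pt_mem_Gr _ _).mpr (not_not.mp hcon.1)⟩
          by_contra h2
          exact hcon.2 (mem_iUnion.mpr ⟨i, mem_iUnion.mpr ⟨j, not_le.mp h2⟩⟩)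
        · rintro ⟨hv, h⟩
          refine ⟨hv, fun hS => ?_⟩
          rcases h with h | h
          · exact h ((pt_mem_Gr _ _).mp hS.2)
          · obtain ⟨i, h⟩ := mem_iUnion.mp h
            obtain ⟨j, h⟩ := mem_iUnion.mp h
            exact absurd ((pt_mem_polytope _ _ _).mp hS.1 i j) (not_le.mpr h)
      rw [this]
      have hcp : Continuous plucker := by unfold plucker; fun_prop
      refine isOpen_compl_singleton.inter ((isOpen_ne_fun hcp continuous_const).union ?_)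
      refine isOpen_iUnion fun i => isOpen_iUnion fun j => ?_
      exact isOpen_lt ((continuous_form i).mul (continuous_form j)) continuous_const
  · rintro x ⟨hx, hxG⟩
    obtain ⟨v, hv, rfl, hn⟩ := exists_rep hx
    have hp := (pt_mem_Gr _ _).mp hxG
    rcases lt_or_gt_of_ne (ne_of_mem hv hn hp) with h | h
    · have h1 := closure_core sw continuous_sw (fun _ => pos_sw) plucker_sw (fun _ => sw_ne)
        (v := sw v) (by rw [sw_sw]; exact hv) (nonneg_sw hn) (by rw [plucker_sw]; exact hp)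
        (by simpa [sw] using h)
      have e : pt (sw (sw v)) (by rw [sw_sw]; exact hv) = pt v hv := by
        congr 1; exact sw_sw v
      rw [← e]; exact h1
    · exact closure_core id continuous_id (fun _ h => h) (fun _ => rfl) (fun _ h => h) hv hn hp h

/-! ## The polytope is simple -/

lemma simple : IsSimplePolytope H where
  full := by
    refine ⟨![10, 1, 1, 1, 1, 10], ?_⟩
    change Pos _
    rw [pos_iff]
    simp
    norm_num
  facet := by
    rw [forall_form]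
    refine ⟨⟨![0, 1, 1, 1, 1, 10], ?_, ?_⟩, ⟨![10, 0, 1, 1, 1, 10], ?_, ?_⟩,
      ⟨![10, 1, 0, 1, 1, 10], ?_, ?_⟩, ⟨![10, 1, 1, 0, 1, 10], ?_, ?_⟩,
      ⟨![10, 1, 1, 1, 0, 10], ?_, ?_⟩, ⟨![10, 1, 1, 1, 1, 0], ?_, ?_⟩,
      ⟨![2, 1, 1, 1, 1, 2], ?_, ?_⟩⟩ <;>
    first
      | (rw [ne_form]; simp [hh_apply]; norm_num)
      | (rw [ne_form]; simp [hh_apply])
      | (simp [hh_apply]; norm_num)
      | (simp)
  simple := by
    classical
    intro s hs
    rw [Fintype.linearIndependent_iff]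
    intro g hg
    -- the combination, extended by zero
    set G : Fin 6 ⊕ Fin 1 → ℝ := fun i => if h : i ∈ s then g ⟨i, h⟩ else 0 with hG
    have h1 : ∀ v : V, ∑ i, G i * form H i v = 0 := by
      intro v
      have h2 := LinearMap.congr_fun hg v
      rw [LinearMap.sum_apply] at h2
      simp only [LinearMap.smul_apply, smul_eq_mul, LinearMap.zero_apply] at h2
      rw [← h2, ← Finset.sum_subset (Finset.subset_univ s) fun i _ hi => by
        simp only [hG, dif_neg hi, zero_mul]]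
      rw [← Finset.sum_coe_sort s]
      refine Finset.sum_congr rfl fun i _ => ?_
      simp only [hG, dif_pos i.2]
    simp only [Fintype.sum_sum_type, Fin.sum_univ_six, Finset.univ_unique, Fin.default_eq_zero,
      Finset.sum_singleton, form_inl, form_inr, hh_apply] at h1
    have hmiss : ∃ i, i ∉ s := by
      by_contra hcon
      push Not at hcon
      have : s = Finset.univ := Finset.eq_univ_of_forall hcon
      rw [this] at hs
      simp at hs
    have k0 := h1 ![1, 0, 0, 0, 0, 0]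
    have k1 := h1 ![0, 1, 0, 0, 0, 0]
    have k2 := h1 ![0, 0, 1, 0, 0, 0]
    have k3 := h1 ![0, 0, 0, 1, 0, 0]
    have k4 := h1 ![0, 0, 0, 0, 1, 0]
    have k5 := h1 ![0, 0, 0, 0, 0, 1]
    simp at k0 k1 k2 k3 k4 k5
    have hz : ∀ i, G i = 0 := by
      obtain ⟨i, hi⟩ := hmiss
      have hi0 : G i = 0 := by simp only [hG, dif_neg hi]
      have h6 : G (Sum.inr 0) = 0 := by
        rcases i with i | i
        · fin_cases i <;> simp at hi0 <;> linarith
        · fin_cases i; exact hi0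
      rw [h6] at k0 k1 k2 k3 k4 k5
      rw [forall_form]
      refine ⟨?_, ?_, ?_, ?_, ?_, ?_, h6⟩ <;> linarith
    intro i
    have := hz i
    simpa only [hG, dif_pos i.2] using this

/-! ## The result -/

lemma T_not_mem {i j : Fin 6 ⊕ Fin 1} (h : sect (form H i) ⊆ sect (form H j))
    (hne : (T i).Nonempty) : j = i := by
  by_contra hji
  obtain ⟨x, hx⟩ := hne
  have h1 := (h (T_subset_sect i hx)).2
  obtain ⟨v, hv, rfl, hp, h0, hj⟩ := hx
  have := (pt_mem_hyperplane _ _ _).mp h1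
  exact (hj j hji).ne' this

lemma idx_injective : Function.Injective idx := by
  intro i j h
  revert h
  revert i j
  decide

lemma positive : IsPositivePolytope H S where
  eq := rfl
  simple := simple
  regular := regular
  facets := by
    have hinj : ∀ i j, sect (form H (idx i)) ⊆ sect (form H (idx j)) → i = j := fun i j h =>
      (idx_injective (T_not_mem h (T_all i).2.1)).symm
    refine ⟨fun i => sect (form H (idx i)), ?_, ?_, ?_⟩
    · intro i j h
      exact hinj i j h.subset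
    · have hz : zariskiClosure (bdry S) = ⋃ i, sect (form H (idx i)) := by
        apply Subset.antisymm
        · have h1 := zariskiClosure_mono bdry_subset
          rwa [isZariskiClosed_iUnion (A := fun i => sect (form H (idx i)))
            fun i => isZariskiClosed_sect _] at h1
        · refine iUnion_subset fun i => ?_
          exact (T_all i).2.2.1.trans (zariskiClosure_mono (T_all i).1)
      rw [hz, components_iUnion (fun i => isZariskiClosed_sect _) (fun i => (T_all i).2.2.2) hinj]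
    · intro i
      refine ⟨inter_subset_right, ?_⟩
      exact ((T_all i).2.1.mono (T_subset_relInt _)).mono subset_closure

lemma isOpen_sq (i j : Fin 6) : IsOpen {x : P5 | (x.rep i) ^ 2 < (x.rep j) ^ 2} := by
  rw [isOpen_iff]
  have : {v : V | ∃ hv : v ≠ 0, pt v hv ∈ {x : P5 | (x.rep i) ^ 2 < (x.rep j) ^ 2}} =
      {v | v ≠ 0} ∩ {v | (v i) ^ 2 < (v j) ^ 2} := by
    ext v
    have key : ∀ hv : v ≠ 0, ((pt v hv).rep i) ^ 2 < ((pt v hv).rep j) ^ 2 ↔
        (v i) ^ 2 < (v j) ^ 2 := by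
      intro hv
      obtain ⟨c, hc, e⟩ := rep_pt v hv
      rw [e, Pi.smul_apply, Pi.smul_apply, smul_eq_mul, smul_eq_mul, mul_pow, mul_pow]
      exact mul_lt_mul_iff_right₀ (by positivity)
    constructor
    · rintro ⟨hv, h⟩
      exact ⟨hv, (key hv).mp h⟩
    · rintro ⟨hv, h⟩
      exact ⟨hv, (key hv).mpr h⟩
  rw [this]
  exact isOpen_compl_singleton.inter (isOpen_lt (by fun_prop) (by fun_prop))

lemma rep_sq {v : V} (hv : v ≠ 0) {i j : Fin 6} (h : (v i) ^ 2 < (v j) ^ 2) :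
    pt v hv ∈ {x : P5 | (x.rep i) ^ 2 < (x.rep j) ^ 2} := by
  obtain ⟨c, hc, e⟩ := rep_pt v hv
  rw [mem_ofPred_eq, e, Pi.smul_apply, Pi.smul_apply, smul_eq_mul, smul_eq_mul, mul_pow, mul_pow]
  exact (mul_lt_mul_iff_right₀ (by positivity)).mpr h

lemma not_preconnected : ¬ IsPreconnected S := by
  intro hcon
  have hv1 : (![1, 0, 0, 0, 0, 0] : V) ≠ 0 := fun h => by
    have := congrFun h 0; simp at this
  have hv2 : (![0, 0, 0, 0, 0, 1] : V) ≠ 0 := fun h => by
    have := congrFun h 5; simp at this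
  have hm1 : pt _ hv1 ∈ S := by
    refine ⟨mem_polytope_of_nonneg hv1 ?_, (pt_mem_Gr _ _).mpr (by simp [plucker])⟩
    rw [nonneg_iff]; simp
  have hm2 : pt _ hv2 ∈ S := by
    refine ⟨mem_polytope_of_nonneg hv2 ?_, (pt_mem_Gr _ _).mpr (by simp [plucker])⟩
    rw [nonneg_iff]; simp
  have hsub : S ⊆ {x : P5 | (x.rep 5) ^ 2 < (x.rep 0) ^ 2} ∪
      {x : P5 | (x.rep 0) ^ 2 < (x.rep 5) ^ 2} := by
    rintro x ⟨hx, hxG⟩
    obtain ⟨v, hv, rfl, hn⟩ := exists_rep hx
    have hp := (pt_mem_Gr _ _).mp hxG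
    have n0 : 0 ≤ v 0 := hn (Sum.inl 0)
    have n5 : 0 ≤ v 5 := hn (Sum.inl 5)
    rcases lt_or_gt_of_ne (ne_of_mem hv hn hp) with h | h
    · exact Or.inr (rep_sq hv (by nlinarith))
    · exact Or.inl (rep_sq hv (by nlinarith))
  obtain ⟨x, -, hx1, hx2⟩ := hcon _ _ (isOpen_sq 5 0) (isOpen_sq 0 5) hsub
    ⟨_, hm1, rep_sq hv1 (by simp)⟩ ⟨_, hm2, rep_sq hv2 (by simp)⟩
  exact lt_asymm (show (x.rep 5) ^ 2 < (x.rep 0) ^ 2 from hx1) hx2

/-- **Some positive pentahedron in `Gr(2,4)` is disconnected**, so it is not contractible either. -/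
theorem result : ∃ (h : Fin 1 → V →ₗ[ℝ] ℝ) (S : Set P5), IsPositivePolytope h S ∧
    ¬ IsConnected S ∧ ¬ ContractibleSpace S := by
  refine ⟨H, S, positive, fun h => not_preconnected h.isPreconnected, fun h => ?_⟩
  have : ConnectedSpace S := inferInstance
  exact not_preconnected (isPreconnected_iff_preconnectedSpace.mpr inferInstance)

end Pool.Agent.Results.MP_7a7825_ag.DisconnectedPentahedron
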